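import Mathlib
import Pool.Agent.Work.MP_8da9ea_nt.Der
import Pool.Agent.Work.MP_8da9ea_nt.Bd.B03

/-!
# The algebra lemma behind the finiteness of exceptional lines

`G` is an algebraically closed field with a copy of `ℂ`, and the derivations of `ℂ` extend to `G`.
-/

set_option autoImplicit false

namespace Pool.Agent.Work.MP_327059_nt.FL

open Pool.Agent.ED

section General

variable {K M : Type} [Field K] [Field M] [Algebra K M]

/-- A finite family has a finite transcendence basis. -/
theorem exists_sub_basis {σ : Type} [Fintype σ] [DecidableEq σ] (F : σ → M) :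
    ∃ s : Finset σ, AlgebraicIndependent K (fun i : s => F i) ∧
      ∀ j, IsAlgebraic (IntermediateField.adjoin K (F '' (s : Set σ))) (F j) := by
  classical
  obtain ⟨s, hs, hmax⟩ : ∃ s : Finset σ, AlgebraicIndependent K (fun i : s => F i) ∧
      ∀ t : Finset σ, AlgebraicIndependent K (fun i : t => F i) → t.card ≤ s.card := by
    have hne : ((Finset.univ : Finset (Finset σ)).filter
        (fun s : Finset σ => AlgebraicIndependent K (fun i : s => F i))).Nonempty := by
      refine ⟨(∅ : Finset σ), ?_⟩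
      rw [Finset.mem_filter]
      refine ⟨Finset.mem_univ _, ?_⟩
      rw [algebraicIndependent_empty_type_iff]
      exact (algebraMap K M).injective
    obtain ⟨s, hs, hm⟩ := Finset.exists_max_image _ Finset.card hne
    rw [Finset.mem_filter] at hs
    exact ⟨s, hs.2, fun t ht => hm t (by rw [Finset.mem_filter]; exact ⟨Finset.mem_univ _, ht⟩)⟩
  refine ⟨s, hs, fun j => ?_⟩
  by_contra hj
  have hj1 : Transcendental (Algebra.adjoin K (F '' (s : Set σ))) (F j) := by
    intro h
    exact hj (IntermediateField.isAlgebraic_adjoin_iff.2 h)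
  have hjs : j ∉ s := by
    intro hmem
    apply hj1
    exact isAlgebraic_algebraMap
      (⟨F j, Algebra.subset_adjoin ⟨j, hmem, rfl⟩⟩ : Algebra.adjoin K (F '' (s : Set σ)))
  have hs' : AlgebraicIndepOn K F (s : Set σ) := hs
  have h2 := hs'.insert hj1
  have h3 : AlgebraicIndependent K (fun i : (insert j s : Finset σ) => F i) := by
    have h4 : ((insert j s : Finset σ) : Set σ) = insert j (s : Set σ) := Finset.coe_insert j s
    have h5 : AlgebraicIndepOn K F ((insert j s : Finset σ) : Set σ) := by rw [h4]; exact h2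
    exact h5
  have h6 := hmax _ h3
  rw [Finset.card_insert_of_notMem hjs] at h6
  omega

end General

section Field

variable {C G : Type} [Field C] [CharZero C] [Field G] [CharZero G]

/-- Algebraic elements are preserved by homomorphisms. -/
theorem alg_map (ι : C →+* G) (S : Set C) (z : C)
    (hz : IsAlgebraic (IntermediateField.adjoin ℚ S) z) :
    IsAlgebraic (IntermediateField.adjoin ℚ (ι '' S)) (ι z) := by
  let φ : C →ₐ[ℚ] G := ι.toRatAlgHom
  have hmap : (IntermediateField.adjoin ℚ S).map φ = IntermediateField.adjoin ℚ (ι '' S) := by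
    rw [IntermediateField.adjoin_map]
    rfl
  rw [← hmap]
  let f : IntermediateField.adjoin ℚ S →+* (IntermediateField.adjoin ℚ S).map φ :=
    ((IntermediateField.adjoin ℚ S).equivMap φ).toRingEquiv.toRingHom
  refine IsAlgebraic.ringHom_of_comp_eq (f := f) (g := ι) hz ?_ ?_
  · exact RingEquiv.injective _
  · rfl

/-- The values of a derivation of `G` on finitely many elements of `C` are combinations of the
values of derivations of `C`. -/
theorem der_span (ι : C →+* G) (xd : Derivation ℚ C C → Derivation ℚ G G)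
    (hxd : ∀ δ c, xd δ (ι c) = ι (δ c)) {σ : Type} [Fintype σ] [DecidableEq σ] (F : σ → C)
    (X : Derivation ℚ G G) :
    ∃ (s : Finset σ) (δ : s → Derivation ℚ C C) (c : s → G),
      ∀ i, X (ι (F i)) = ∑ k, c k * ι (δ k (F i)) := by
  classical
  obtain ⟨s, hs, halg⟩ := exists_sub_basis (K := ℚ) F
  have h1 : ∀ k : s, ∃ δ : Derivation ℚ C C, ∀ i : s, δ (F i) = if i = k then 1 else 0 :=
    fun k => exists_derivation hs _
  choose δ hδ using h1
  refine ⟨s, δ, fun k => X (ι (F k)), ?_⟩
  let Y : Derivation ℚ G G := X - ∑ k : s, X (ι (F k)) • xd (δ k)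
  have hY : ∀ z, Y z = X z - ∑ k : s, X (ι (F k)) * xd (δ k) z := by
    intro z
    change X z - (∑ k : s, X (ι (F k)) • xd (δ k)) z = _
    congr 1
    have h2 : ∀ t : Finset s, (∑ k ∈ t, X (ι (F k)) • xd (δ k)) z =
        ∑ k ∈ t, X (ι (F k)) * xd (δ k) z := by
      intro t
      induction t using Finset.induction_on with
      | empty => simp
      | insert a t ha ih =>
        rw [Finset.sum_insert ha, Finset.sum_insert ha, Derivation.add_apply, ih]
        rfl
    exact h2 _
  have hY0 : ∀ z ∈ IntermediateField.adjoin ℚ (ι '' (F '' (s : Set σ))), Y z = 0 := by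
    apply der_zero_adjoin
    rintro _ ⟨_, ⟨i, hi, rfl⟩, rfl⟩
    rw [hY]
    have h2 : ∑ k : s, X (ι (F k)) * xd (δ k) (ι (F i)) = X (ι (F i)) := by
      rw [Finset.sum_eq_single (⟨i, hi⟩ : s)]
      · rw [hxd, hδ ⟨i, hi⟩ ⟨i, hi⟩, if_pos rfl, map_one, mul_one]
      · intro k _ hk
        rw [hxd, hδ k ⟨i, hi⟩, if_neg (Ne.symm hk), map_zero, mul_zero]
      · intro h
        exact absurd (Finset.mem_univ _) h
    rw [h2, sub_self]
  intro i
  have h3 := der_zero_alg _ Y hY0 (ι (F i)) (alg_map ι _ _ (halg i))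
  rw [hY, sub_eq_zero] at h3
  rw [h3]
  exact Finset.sum_congr rfl fun k _ => by rw [hxd]

end Field

section Core

variable {C G : Type} [Field C] [CharZero C] [Field G] [CharZero G]

theorem closed_of (E : IntermediateField ℚ G) [IsAlgClosed G]
    (h : ∀ x : G, IsAlgebraic E x → x ∈ E) : IsAlgClosed E := by
  refine IsAlgClosed.of_exists_root E fun p hm hi => ?_
  obtain ⟨z, hz⟩ := IsAlgClosed.exists_aeval_eq_zero G p hi.degree_pos.ne'
  have hzE : z ∈ E := h z ⟨p, hi.ne_zero, hz⟩
  refine ⟨⟨z, hzE⟩, ?_⟩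
  have e1 : Polynomial.aeval (algebraMap E G ⟨z, hzE⟩) p =
      algebraMap E G (Polynomial.eval ⟨z, hzE⟩ p) :=
    Polynomial.aeval_algebraMap_apply_eq_algebraMap_eval _ _
  have e2 : algebraMap E G (Polynomial.eval ⟨z, hzE⟩ p) = 0 := by
    rw [← e1]
    exact hz
  exact (map_eq_zero_iff _ (algebraMap E G).injective).1 e2

/-- **The algebra lemma.** -/
theorem core [IsAlgClosed G] (ι : C →+* G) (xd : Derivation ℚ C C → Derivation ℚ G G)
    (hxd : ∀ δ c, xd δ (ι c) = ι (δ c)) {n : ℕ} (v : Fin n → G) (hv : ∀ δ i, xd δ (v i) = 0)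
    (F1 : ∀ c : Fin n → C, ∑ i, v i * ι (c i) = 0 → c = 0)
    (x y : Fin n → C) (hy : ∀ i, y i ≠ 0)
    (F2 : ∀ δ δ' : Derivation ℚ C C,
      (∑ i, v i * ι (δ (x i))) * (∑ i, v i * (ι (δ' (y i)) / ι (y i))) =
      (∑ i, v i * ι (δ' (x i))) * (∑ i, v i * (ι (δ (y i)) / ι (y i))))
    (i0 : Fin n) (hi0 : Transcendental ℚ (x i0)) (δ δ' : Derivation ℚ C C) (i j : Fin n) :
    δ' (x j) * δ (y i) = δ (x j) * δ' (y i) := by
  classical
  set A : Derivation ℚ C C → G := fun δ => ∑ i, v i * ι (δ (x i)) with hA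
  set B : Derivation ℚ C C → G := fun δ => ∑ i, v i * (ι (δ (y i)) / ι (y i)) with hB
  have F2' : ∀ δ δ', A δ * B δ' = A δ' * B δ := F2
  set θ : G := ∑ i, v i * ι (x i) with hθ
  -- some `A δ0` does not vanish
  obtain ⟨δ0, hδ0⟩ : ∃ δ0, A δ0 ≠ 0 := by
    have hai : AlgebraicIndependent ℚ (fun _ : Unit => x i0) := by
      rw [algebraicIndependent_unique_type_iff]
      exact hi0
    obtain ⟨δ0, h0⟩ := exists_derivation hai (fun _ => (1 : C))
    refine ⟨δ0, fun h => ?_⟩
    have h1 := congrFun (F1 (fun i => δ0 (x i)) h) i0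
    simp only [Pi.zero_apply] at h1
    rw [h0 ()] at h1
    exact one_ne_zero h1
  -- the field `E`
  let S : Set G := insert θ (Set.range v)
  let E0 := IntermediateField.adjoin ℚ S
  let E : IntermediateField ℚ G := (algebraicClosure E0 G).restrictScalars ℚ
  have hEmem : ∀ z : G, z ∈ E ↔ IsAlgebraic E0 z := fun z => by
    change z ∈ algebraicClosure E0 G ↔ _
    exact mem_algebraicClosure_iff
  have hSE : ∀ z ∈ S, z ∈ E := by
    intro z hz
    rw [hEmem]
    have h : z ∈ E0 := IntermediateField.subset_adjoin ℚ S hz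
    exact isAlgebraic_algebraMap (R := E0) (A := G) ⟨z, h⟩
  have hθE : θ ∈ E := hSE θ (Set.mem_insert _ _)
  have hvE : ∀ i, v i ∈ E := fun i => hSE _ (Set.mem_insert_of_mem _ ⟨i, rfl⟩)
  have hEcl : ∀ z : G, IsAlgebraic E z → z ∈ E := by
    intro z hz
    have hz' : IsAlgebraic (algebraicClosure E0 G) z := hz
    rw [hEmem]
    exact hz'.restrictScalars E0
  have hclosed : IsAlgClosed E := closed_of E hEcl
  have hkillE : ∀ Y : Derivation ℚ G G, Y θ = 0 → (∀ i, Y (v i) = 0) → ∀ z ∈ E, Y z = 0 := by
    intro Y h1 h2 z hz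
    refine der_zero_alg E0 Y ?_ z ((hEmem z).1 hz)
    apply der_zero_adjoin
    rintro s (rfl | ⟨i, rfl⟩)
    · exact h1
    · exact h2 i
  -- the elements `y` are in `E`
  have hyE : ∀ i, ι (y i) ∈ E := by
    let ε : Fin n → E := fun i => ⟨v i, hvE i⟩
    have hε : LinearIndependent ℚ ε := by
      rw [Fintype.linearIndependent_iff]
      intro g hg
      have h1 : ∑ i, v i * ι (g i : C) = 0 := by
        have h2 := congrArg (algebraMap E G) hg
        rw [map_sum, map_zero] at h2
        rw [← h2]
        refine Finset.sum_congr rfl fun i _ => ?_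
        rw [Algebra.smul_def, map_mul, map_ratCast, mul_comm]
        simp only [eq_ratCast, map_ratCast]
        rfl
      have h3 := F1 _ h1
      intro i
      have h4 := congrFun h3 i
      simpa using h4
    have hmem := tor_res_closed (C := E) (M := G) ε hε (fun i => ι (y i))
      (fun i => (map_ne_zero ι).2 (hy i)) 0 (by
        intro X
        rw [map_zero]
        have hXE : ∀ z ∈ E, X z = 0 := fun z hz => X.map_algebraMap (⟨z, hz⟩ : E)
        obtain ⟨s, d, c, hc⟩ := der_span ι xd hxd (Sum.elim x y) (X.restrictScalars ℚ)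
        have hx' : ∀ i, X (ι (x i)) = ∑ k, c k * ι (d k (x i)) := fun i => hc (Sum.inl i)
        have hy' : ∀ i, X (ι (y i)) = ∑ k, c k * ι (d k (y i)) := fun i => hc (Sum.inr i)
        have e1 : ∑ k, c k * A (d k) = 0 := by
          have h1 : X θ = 0 := hXE θ hθE
          rw [hθ, map_sum] at h1
          rw [← h1]
          simp only [hA, Finset.mul_sum]
          rw [Finset.sum_comm]
          refine Finset.sum_congr rfl fun i _ => ?_
          rw [Derivation.leibniz, hXE _ (hvE i), smul_zero, add_zero, hx' i, smul_eq_mul,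
            Finset.mul_sum]
          exact Finset.sum_congr rfl fun k _ => by ring
        have e2 : ∑ k, c k * B (d k) = 0 := by
          have h2 : A δ0 * ∑ k, c k * B (d k) = B δ0 * ∑ k, c k * A (d k) := by
            rw [Finset.mul_sum, Finset.mul_sum]
            refine Finset.sum_congr rfl fun k _ => ?_
            linear_combination (c k) * F2' δ0 (d k)
          rw [e1, mul_zero] at h2
          exact (mul_eq_zero.1 h2).resolve_left hδ0
        rw [← e2]
        simp only [hB, Finset.mul_sum]
        rw [Finset.sum_comm]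
        refine Finset.sum_congr rfl fun i _ => ?_
        change v i * (X (ι (y i)) / ι (y i)) = _
        rw [hy' i, Finset.sum_div, Finset.mul_sum]
        exact Finset.sum_congr rfl fun k _ => by ring)
    intro i
    obtain ⟨e, he⟩ := hmem i
    rw [← he]
    exact e.2
  -- the derivation `A δ' • δ - A δ • δ'`
  let Y : Derivation ℚ G G := A δ' • xd δ - A δ • xd δ'
  have hY : ∀ z, Y z = A δ' * xd δ z - A δ * xd δ' z := fun z => rfl
  have hxθ : ∀ δ, xd δ θ = A δ := by
    intro δ
    rw [hθ, map_sum]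
    refine Finset.sum_congr rfl fun i _ => ?_
    rw [Derivation.leibniz, hv, smul_zero, add_zero, hxd, smul_eq_mul]
  have h1 : Y (ι (y i)) = 0 := by
    apply hkillE Y _ _ _ (hyE i)
    · rw [hY, hxθ, hxθ]; ring
    · intro i; rw [hY, hv, hv]; ring
  rw [hY, hxd, hxd] at h1
  have h2 : ∑ j, v j * ι (δ' (x j) * δ (y i) - δ (x j) * δ' (y i)) = 0 := by
    rw [← h1]
    simp only [hA, Finset.sum_mul]
    rw [← Finset.sum_sub_distrib]
    refine Finset.sum_congr rfl fun j _ => ?_
    rw [map_sub, map_mul, map_mul]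
    ring
  have h3 := congrFun (F1 _ h2) j
  simp only [Pi.zero_apply] at h3
  exact sub_eq_zero.1 h3

end Core

end Pool.Agent.Work.MP_327059_nt.FL
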