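import Mathlib

/-!
# The ultrapower of the complex numbers
-/

set_option autoImplicit false

namespace Pool.Agent.Work.MP_327059_nt.FL

open Filter

variable {α : Type} (U : Ultrafilter α)

/-- The ultrapower of `ℂ`. -/
def UG : Type := Filter.Germ (U : Filter α) ℂ

noncomputable instance : Field (UG U) :=
  inferInstanceAs (Field (Filter.Germ (U : Filter α) ℂ))

/-- The class of a function. -/
noncomputable def cl : (α → ℂ) →+* UG U := Filter.Germ.coeRingHom (U : Filter α)

/-- The constants. -/
noncomputable def con : ℂ →+* UG U := (cl U).comp (Pi.constRingHom α ℂ)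

theorem con_apply (c : ℂ) : con U c = cl U (fun _ => c) := rfl

theorem cl_surj : Function.Surjective (cl U) := by
  intro g
  exact Filter.Germ.inductionOn (p := fun g => ∃ a, cl U a = g) g (fun f => ⟨f, rfl⟩)

theorem cl_eq (f g : α → ℂ) : cl U f = cl U g ↔ ∀ᶠ t in (U : Filter α), f t = g t :=
  Filter.Germ.coe_eq

theorem cl_eq_zero (f : α → ℂ) : cl U f = 0 ↔ ∀ᶠ t in (U : Filter α), f t = 0 := by
  rw [← map_zero (cl U), cl_eq]
  rfl

instance : CharZero (UG U) := by
  have h : Function.Injective (con U) := (con U).injective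
  exact charZero_of_injective_ringHom h

theorem eval_pi {α : Type} (q : Polynomial (α → ℂ)) (r : α → ℂ) (t : α) :
    (q.eval r) t = (q.map (Pi.evalRingHom (fun _ : α => ℂ) t)).eval (r t) := by
  rw [Polynomial.eval_map]
  have h := Polynomial.hom_eval₂ q (RingHom.id _) (Pi.evalRingHom (fun _ : α => ℂ) t) r
  rw [RingHom.comp_id] at h
  exact h

instance : IsAlgClosed (UG U) := by
  refine IsAlgClosed.of_exists_root (UG U) fun p hm hi => ?_
  have hl : p ∈ Polynomial.lifts (cl U) := by
    rw [Polynomial.mem_lifts]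
    exact Polynomial.map_surjective _ (cl_surj U) p
  obtain ⟨q, hq, hdeg, hqm⟩ := Polynomial.lifts_and_natDegree_eq_and_monic hl hm
  have hroot : ∀ t : α, ∃ z : ℂ, (q.map (Pi.evalRingHom (fun _ : α => ℂ) t)).eval z = 0 := by
    intro t
    have h1 : (q.map (Pi.evalRingHom (fun _ : α => ℂ) t)).natDegree = q.natDegree :=
      hqm.natDegree_map _
    have h2 : 0 < p.natDegree := hi.natDegree_pos
    have h3 : (q.map (Pi.evalRingHom (fun _ : α => ℂ) t)).degree ≠ 0 := by
      intro h
      have h4 : (q.map (Pi.evalRingHom (fun _ : α => ℂ) t)).natDegree = 0 :=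
        Polynomial.natDegree_eq_zero_iff_degree_le_zero.2 h.le
      rw [h1, hdeg] at h4
      exact h2.ne' h4
    exact IsAlgClosed.exists_root _ h3
  choose r hr using hroot
  refine ⟨cl U r, ?_⟩
  have h1 : q.eval r = 0 := by
    funext t
    rw [eval_pi]
    exact hr t
  rw [← hq, Polynomial.eval_map, Polynomial.eval₂_hom, h1, map_zero]

/-- The coefficientwise extension of a derivation, as an additive map. -/
noncomputable def xda (δ : Derivation ℚ ℂ ℂ) : UG U →+ UG U where
  toFun := Filter.Germ.map δ
  map_zero' := by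
    rw [← map_zero (cl U)]
    change cl U (fun _ => δ 0) = _
    simp only [map_zero]
    exact map_zero (cl U)
  map_add' := by
    intro a b
    obtain ⟨f, rfl⟩ := cl_surj U a
    obtain ⟨g, rfl⟩ := cl_surj U b
    change cl U (fun t => δ (f t + g t)) = cl U (fun t => δ (f t) + δ (g t))
    simp only [map_add]

/-- The coefficientwise extension of a derivation. -/
noncomputable def xd (δ : Derivation ℚ ℂ ℂ) : Derivation ℚ (UG U) (UG U) :=
  Derivation.mk' (xda U δ).toRatLinearMap (by
    intro a b
    obtain ⟨f, rfl⟩ := cl_surj U a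
    obtain ⟨g, rfl⟩ := cl_surj U b
    change cl U (fun t => δ (f t * g t)) = cl U (fun t => f t * δ (g t) + g t * δ (f t))
    simp only [Derivation.leibniz, smul_eq_mul])

theorem xd_cl (δ : Derivation ℚ ℂ ℂ) (f : α → ℂ) : xd U δ (cl U f) = cl U (fun t => δ (f t)) :=
  rfl

theorem xd_con (δ : Derivation ℚ ℂ ℂ) (c : ℂ) : xd U δ (con U c) = con U (δ c) := rfl

/-- The class of a function with rational values is killed. -/
theorem xd_rat (δ : Derivation ℚ ℂ ℂ) (f : α → ℚ) : xd U δ (cl U (fun t => (f t : ℂ))) = 0 := by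
  rw [xd_cl]
  have h : (fun t => δ ((f t : ℚ) : ℂ)) = 0 := by
    funext t
    exact δ.map_algebraMap (f t)
  rw [h, map_zero]

end Pool.Agent.Work.MP_327059_nt.FL
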