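import Pool.Agent.Work.MP_327059_nt.FL.Alg
import Pool.Agent.Work.MP_327059_nt.FL.Germ
import Pool.Agent.Work.MP_327059_nt.AA.Asm
import Pool.Agent.Work.MP_327059_nt.AA.AlgB
import Pool.Agent.Work.MP_327059_nt.AA.FinB

/-!
# Exceptional logarithms do not escape from all proper subspaces
-/

set_option autoImplicit false

namespace Pool.Agent.Work.MP_327059_nt.FL

open Pool.Agent.ED Pool.Agent.Work.MP_327059_nt.AA

/-- The logarithmic derivative of `z ↦ exp (β z)` along a derivation. -/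
noncomputable def ld (β : ℂ) (δ : Derivation ℚ ℂ ℂ) : ℂ →ₗ[ℚ] ℂ :=
  AddMonoidHom.toRatLinearMap
    { toFun := fun z => δ (Complex.exp (β * z)) / Complex.exp (β * z)
      map_zero' := by
        rw [mul_zero, Complex.exp_zero, Derivation.map_one_eq_zero, zero_div]
      map_add' := by
        intro z w
        have hz := Complex.exp_ne_zero (β * z)
        have hw := Complex.exp_ne_zero (β * w)
        rw [mul_add, Complex.exp_add, Derivation.leibniz, smul_eq_mul, smul_eq_mul]
        field_simp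
        ring }

theorem ld_apply (β : ℂ) (δ : Derivation ℚ ℂ ℂ) (z : ℂ) :
    ld β δ z = δ (Complex.exp (β * z)) / Complex.exp (β * z) := rfl

theorem der_alg {θ z : ℂ} (h : Alg θ z) (D : Derivation ℚ ℂ ℂ) (hD : D θ = 0) : D z = 0 := by
  refine der_zero_alg _ D ?_ z h
  apply der_zero_adjoin
  intro s hs
  rw [Set.mem_singleton_iff] at hs
  rw [hs]
  exact hD

/-- The relation between the two differentials at an exceptional logarithm. -/
theorem dep_rel (β z : ℂ) (hz : z ≠ 0) (hexp : IsAlgebraic ℚ (Complex.exp z))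
    (hbad : ¬ AlgebraicIndependent ℚ ![z, Complex.exp (β * z)]) (δ δ' : Derivation ℚ ℂ ℂ) :
    δ z * ld β δ' z = δ' z * ld β δ z := by
  have hzt : Transcendental ℚ z := fun h => LW.transcendental_exp h hz hexp
  have halg : Alg z (Complex.exp (β * z)) := by
    by_contra h
    exact hbad ((pr_Pair _ _ hzt).mpr h)
  let D : Derivation ℚ ℂ ℂ := δ z • δ' - δ' z • δ
  have hD : ∀ w, D w = δ z * δ' w - δ' z * δ w := fun w => rfl
  have h1 := der_alg halg D (by rw [hD]; ring)
  rw [hD, sub_eq_zero] at h1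
  rw [ld_apply, ld_apply, mul_div_assoc', h1, mul_div_assoc]

/-- The core: if the exceptional vectors are not covered by finitely many proper subspaces, then
all differentials are proportional. -/
theorem prop_of_uncovered {n : ℕ} (β : ℂ) (l : Fin n → ℂ) (i0 : Fin n)
    (hli : LinearIndependent ℚ l) (hexp : ∀ t : Fin n → ℚ,
      IsAlgebraic ℚ (Complex.exp (Fintype.linearCombination ℚ l t)))
    (hcov : ∀ T : Finset (Submodule ℚ (Fin n → ℚ)), (∀ W ∈ T, W ≠ ⊤) →
      ∃ t : Fin n → ℚ, (∀ W ∈ T, t ∉ W) ∧ ¬ AlgebraicIndependent ℚ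
        ![Fintype.linearCombination ℚ l t,
          Complex.exp (β * Fintype.linearCombination ℚ l t)])
    (δ δ' : Derivation ℚ ℂ ℂ) (i j : Fin n) :
    δ' (l j) * δ (Complex.exp (β * l i)) = δ (l j) * δ' (Complex.exp (β * l i)) := by
  classical
  set lam := Fintype.linearCombination ℚ l with hlam
  let S : Set (Set (Fin n → ℚ)) := {A | ∃ W : Submodule ℚ (Fin n → ℚ), W ≠ ⊤ ∧
    A = {t | t ∉ W ∧ ¬ AlgebraicIndependent ℚ ![lam t, Complex.exp (β * lam t)]}}
  obtain ⟨U, hU⟩ := Ultrafilter.exists_ultrafilter_of_finite_inter_nonempty S (by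
    intro T hT
    have hW : ∀ A : T, ∃ W : Submodule ℚ (Fin n → ℚ), W ≠ ⊤ ∧
        (A : Set (Fin n → ℚ)) = {t | t ∉ W ∧
          ¬ AlgebraicIndependent ℚ ![lam t, Complex.exp (β * lam t)]} := fun A => hT A.2
    choose W hW1 hW2 using hW
    obtain ⟨t, ht1, ht2⟩ := hcov (Finset.univ.image W) (by
      intro V hV
      obtain ⟨A, _, rfl⟩ := Finset.mem_image.1 hV
      exact hW1 A)
    refine ⟨t, fun A hA => ?_⟩
    have h1 := hW2 ⟨A, hA⟩
    change A = _ at h1
    rw [h1]
    exact ⟨ht1 _ (Finset.mem_image.2 ⟨⟨A, hA⟩, Finset.mem_univ _, rfl⟩), ht2⟩)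
  have hev : ∀ W : Submodule ℚ (Fin n → ℚ), W ≠ ⊤ → ∀ᶠ t in (U : Filter (Fin n → ℚ)),
      t ∉ W ∧ ¬ AlgebraicIndependent ℚ ![lam t, Complex.exp (β * lam t)] := by
    intro W hW
    exact hU ⟨W, hW, rfl⟩
  let v : Fin n → UG U := fun i => cl U (fun t => ((t i : ℚ) : ℂ))
  have hsum : ∀ (c : Fin n → ℂ), ∑ i, v i * con U (c i) = cl U (fun t => ∑ i, ((t i : ℚ) : ℂ) * c i) := by
    intro c
    have h1 : (fun t : Fin n → ℚ => ∑ i, ((t i : ℚ) : ℂ) * c i) =
        ∑ i, ((fun t : Fin n → ℚ => ((t i : ℚ) : ℂ)) * (fun _ => c i)) := by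
      funext t
      rw [Finset.sum_apply]
      rfl
    rw [h1, map_sum]
    exact Finset.sum_congr rfl fun i _ => by rw [map_mul]; rfl
  have hlin : ∀ (L : ℂ →ₗ[ℚ] ℂ) (t : Fin n → ℚ), ∑ i, ((t i : ℚ) : ℂ) * L (l i) = L (lam t) := by
    intro L t
    rw [hlam, Fintype.linearCombination_apply, map_sum]
    exact Finset.sum_congr rfl fun i _ => by rw [map_smul, Rat.smul_def]
  have hinj : Function.Injective lam := hli.fintypeLinearCombination_injective
  have F1 : ∀ c : Fin n → ℂ, ∑ i, v i * con U (c i) = 0 → c = 0 := by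
    intro c hc
    rw [hsum, cl_eq_zero] at hc
    by_contra hne
    let W : Submodule ℚ (Fin n → ℚ) := LinearMap.ker (Fintype.linearCombination ℚ c)
    have hWmem : ∀ t, t ∈ W ↔ ∑ i, ((t i : ℚ) : ℂ) * c i = 0 := by
      intro t
      rw [LinearMap.mem_ker, Fintype.linearCombination_apply]
      simp only [Rat.smul_def]
    have hWtop : W ≠ ⊤ := by
      intro htop
      apply hne
      funext i
      have h1 : (Pi.single i 1 : Fin n → ℚ) ∈ W := by rw [htop]; trivial
      rw [hWmem, Finset.sum_eq_single i] at h1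
      · simpa using h1
      · intro k _ hk
        rw [Pi.single_eq_of_ne hk]
        simp
      · intro h
        exact absurd (Finset.mem_univ _) h
    obtain ⟨t, ht1, ht2⟩ := (hc.and (hev W hWtop)).exists
    exact ht2.1 ((hWmem t).2 ht1)
  have hA : ∀ δ : Derivation ℚ ℂ ℂ, ∑ i, v i * con U (δ (l i)) = cl U (fun t => δ (lam t)) := by
    intro δ
    rw [hsum]
    congr 1
    funext t
    exact hlin (δ : ℂ →ₗ[ℚ] ℂ) t
  have hB : ∀ δ : Derivation ℚ ℂ ℂ, ∑ i, v i * (con U (δ (Complex.exp (β * l i))) /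
      con U (Complex.exp (β * l i))) = cl U (fun t => ld β δ (lam t)) := by
    intro δ
    have h1 : ∀ i, con U (δ (Complex.exp (β * l i))) / con U (Complex.exp (β * l i)) =
        con U (ld β δ (l i)) := by
      intro i
      rw [ld_apply, map_div₀]
    simp only [h1]
    rw [hsum]
    congr 1
    funext t
    exact hlin (ld β δ) t
  have hne : ∀ t : Fin n → ℚ, t ∉ (⊥ : Submodule ℚ (Fin n → ℚ)) → lam t ≠ 0 := by
    intro t ht h0
    apply ht
    rw [Submodule.mem_bot]
    exact hinj (by rw [h0, map_zero])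
  have hbot : (⊥ : Submodule ℚ (Fin n → ℚ)) ≠ ⊤ := by
    intro h
    have h1 : (Pi.single i0 1 : Fin n → ℚ) ∈ (⊥ : Submodule ℚ (Fin n → ℚ)) := by
      rw [h]; trivial
    rw [Submodule.mem_bot] at h1
    have h2 := congrFun h1 i0
    simp at h2
  have F2 : ∀ δ δ' : Derivation ℚ ℂ ℂ,
      (∑ i, v i * con U (δ (l i))) * (∑ i, v i * (con U (δ' (Complex.exp (β * l i))) /
        con U (Complex.exp (β * l i)))) =
      (∑ i, v i * con U (δ' (l i))) * (∑ i, v i * (con U (δ (Complex.exp (β * l i))) /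
        con U (Complex.exp (β * l i)))) := by
    intro δ δ'
    rw [hA, hA, hB, hB, ← map_mul, ← map_mul, cl_eq]
    refine (hev ⊥ hbot).mono fun t ht => ?_
    exact dep_rel β (lam t) (hne t ht.1) (hexp t) ht.2 δ δ'
  have hl0 : l i0 ≠ 0 := hli.ne_zero i0
  have hexp0 : IsAlgebraic ℚ (Complex.exp (l i0)) := by
    have h := hexp (Pi.single i0 1)
    rw [Fintype.linearCombination_apply_single, one_smul] at h
    exact h
  exact core (con U) (xd U) (xd_con U) v (fun δ i => xd_rat U δ _) F1 l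
    (fun i => Complex.exp (β * l i)) (fun i => Complex.exp_ne_zero _) F2 i0
    (fun h => LW.transcendental_exp h hl0 hexp0) δ δ' i j

end Pool.Agent.Work.MP_327059_nt.FL
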