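import Pool.Agent.Work.MP_327059_nt.FL.Core

/-!
# Finitely many exceptional lines
-/

set_option autoImplicit false

namespace Pool.Agent.Work.MP_327059_nt.FL

open Pool.Agent.ED Pool.Agent.Work.MP_327059_nt.AA

theorem exists_der_one {z : ℂ} (hz : Transcendental ℚ z) : ∃ δ : Derivation ℚ ℂ ℂ, δ z = 1 := by
  have hai : AlgebraicIndependent ℚ (fun _ : Unit => z) := by
    rw [algebraicIndependent_unique_type_iff]
    exact hz
  obtain ⟨δ0, h0⟩ := exists_derivation hai (fun _ => (1 : ℂ))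
  exact ⟨δ0, h0 ()⟩

theorem alg_of_der {θ z : ℂ} (h : ∀ δ : Derivation ℚ ℂ ℂ, δ θ = 0 → δ z = 0) : Alg θ z :=
  isAlgebraic_of_derivation {θ} z (fun X hX => h X (hX θ rfl))

section

variable {n : ℕ} {x y : Fin n → ℂ}

theorem alg_y (H : ∀ (δ δ' : Derivation ℚ ℂ ℂ) (i j : Fin n), δ' (x j) * δ (y i) = δ (x j) * δ' (y i))
    (t : Fin n → ℚ) (ht : Transcendental ℚ (Fintype.linearCombination ℚ x t)) (i : Fin n) :
    Alg (Fintype.linearCombination ℚ x t) (y i) := by
  apply alg_of_der
  intro δ hδ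
  obtain ⟨δ', hδ'⟩ := exists_der_one ht
  have hlin : ∀ D : Derivation ℚ ℂ ℂ, D (Fintype.linearCombination ℚ x t) =
      ∑ j, (t j : ℂ) * D (x j) := by
    intro D
    rw [Fintype.linearCombination_apply, map_sum]
    exact Finset.sum_congr rfl fun j _ => by rw [D.map_smul, Rat.smul_def]
  have h1 : δ' (Fintype.linearCombination ℚ x t) * δ (y i) =
      δ (Fintype.linearCombination ℚ x t) * δ' (y i) := by
    rw [hlin, hlin, Finset.sum_mul, Finset.sum_mul]
    refine Finset.sum_congr rfl fun j _ => ?_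
    linear_combination (t j : ℂ) * H δ δ' i j
  rw [hδ, hδ'] at h1
  linear_combination h1

theorem alg_x (H : ∀ (δ δ' : Derivation ℚ ℂ ℂ) (i j : Fin n), δ' (x j) * δ (y i) = δ (x j) * δ' (y i))
    (i : Fin n) (hy : Transcendental ℚ (y i)) (k : Fin n) (hx : Transcendental ℚ (x k))
    (j : Fin n) : Alg (x k) (x j) := by
  apply alg_of_der
  intro δ hδ
  obtain ⟨δ', hδ'⟩ := exists_der_one hx
  obtain ⟨δ'', hδ''⟩ := exists_der_one hy
  have h1 := H δ δ' i k
  rw [hδ, hδ'] at h1
  have h2 := H δ δ'' i j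
  rw [hδ''] at h2
  have h3 : δ (y i) = 0 := by linear_combination h1
  rw [h3] at h2
  linear_combination -h2

end

/-- The quadratic case: the exceptional vectors of `ℚ^n`, `n ≥ 2`, lie in finitely many proper
subspaces. -/
theorem cover_quad {n : ℕ} (hn : 2 ≤ n) (β : ℂ) (hd : (minpoly ℚ β).natDegree = 2)
    (l : Fin n → ℂ) (hli : LinearIndependent ℚ l) (hexp : ∀ t : Fin n → ℚ,
      IsAlgebraic ℚ (Complex.exp (Fintype.linearCombination ℚ l t))) :
    ∃ T : Finset (Submodule ℚ (Fin n → ℚ)), (∀ W ∈ T, W ≠ ⊤) ∧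
      ∀ t : Fin n → ℚ, ¬ AlgebraicIndependent ℚ ![Fintype.linearCombination ℚ l t,
          Complex.exp (β * Fintype.linearCombination ℚ l t)] → ∃ W ∈ T, t ∈ W := by
  by_contra hcon
  push Not at hcon
  obtain ⟨hβ, hirr, t0, n0, hq⟩ := FinB_quad β hd
  let i0 : Fin n := ⟨0, by omega⟩
  let i1 : Fin n := ⟨1, by omega⟩
  have h01 : i0 ≠ i1 := by
    intro h
    have := congrArg Fin.val h
    simp [i0, i1] at this
  have H := prop_of_uncovered β l i0 hli hexp (fun T hT => by
    obtain ⟨t, ht1, ht2⟩ := hcon T hT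
    exact ⟨t, ht2, ht1⟩)
  have hinj : Function.Injective (Fintype.linearCombination ℚ l) :=
    hli.fintypeLinearCombination_injective
  have htr : ∀ t : Fin n → ℚ, t ≠ 0 → Transcendental ℚ (Fintype.linearCombination ℚ l t) := by
    intro t ht h
    refine LW.transcendental_exp h ?_ (hexp t)
    intro h0
    exact ht (hinj (by rw [h0, map_zero]))
  have hs : ∀ i, Fintype.linearCombination ℚ l (Pi.single i 1) = l i := by
    intro i
    rw [Fintype.linearCombination_apply_single, one_smul]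
  have hne : ∀ i, (Pi.single i 1 : Fin n → ℚ) ≠ 0 := by
    intro i h
    have := congrFun h i
    simp at this
  have hu : ∀ i, Alg (l i) (Complex.exp (β * l i)) := by
    intro i
    have h := alg_y H (Pi.single i 1) (htr _ (hne i)) i
    rwa [hs] at h
  have hsum : Fintype.linearCombination ℚ l (Pi.single i0 1 + Pi.single i1 1) = l i0 + l i1 := by
    rw [map_add, hs, hs]
  have hne2 : (Pi.single i0 1 + Pi.single i1 1 : Fin n → ℚ) ≠ 0 := by
    intro h
    have := congrFun h i0
    rw [Pi.add_apply, Pi.single_eq_same, Pi.single_eq_of_ne h01] at this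
    simp at this
  have h5 := fun i => alg_y H _ (htr _ hne2) i
  rw [hsum] at h5
  refine FinB_core full_T23 full_GS pr_AlgB pr_Pair β hβ hirr t0 n0 hq (l i0) (l i1) ?_ ?_ ?_
    (hu i0) (hu i1) ?_
  · have h := hexp (Pi.single i0 1)
    rwa [hs] at h
  · have h := hexp (Pi.single i1 1)
    rwa [hs] at h
  · intro a b hab
    have h1 : Fintype.linearCombination ℚ l (Pi.single i0 a + Pi.single i1 b) = 0 := by
      rw [map_add, Fintype.linearCombination_apply_single, Fintype.linearCombination_apply_single,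
        Rat.smul_def, Rat.smul_def]
      exact hab
    have h2 : (Pi.single i0 a + Pi.single i1 b : Fin n → ℚ) = 0 := hinj (by rw [h1, map_zero])
    constructor
    · have := congrFun h2 i0
      rw [Pi.add_apply, Pi.single_eq_same, Pi.single_eq_of_ne h01] at this
      simpa using this
    · have := congrFun h2 i1
      rw [Pi.add_apply, Pi.single_eq_same, Pi.single_eq_of_ne (Ne.symm h01)] at this
      simpa using this
  · rw [mul_add, Complex.exp_add]
    exact FinB_algmul (h5 i0) (h5 i1)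

/-- The general case: the exceptional vectors of `ℚ^n`, `n ≥ 3`, lie in finitely many proper
subspaces. -/
theorem cover_gen {n : ℕ} (hn : 3 ≤ n) (β : ℂ) (hβ : IsAlgebraic ℚ β) (hirr : ∀ q : ℚ, β ≠ q)
    (l : Fin n → ℂ) (hli : LinearIndependent ℚ l) (hexp : ∀ t : Fin n → ℚ,
      IsAlgebraic ℚ (Complex.exp (Fintype.linearCombination ℚ l t))) :
    ∃ T : Finset (Submodule ℚ (Fin n → ℚ)), (∀ W ∈ T, W ≠ ⊤) ∧
      ∀ t : Fin n → ℚ, ¬ AlgebraicIndependent ℚ ![Fintype.linearCombination ℚ l t,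
          Complex.exp (β * Fintype.linearCombination ℚ l t)] → ∃ W ∈ T, t ∈ W := by
  by_contra hcon
  push Not at hcon
  let f : Fin 3 → Fin n := fun k => ⟨k, by omega⟩
  have hf : Function.Injective f := by
    intro a b hab
    exact Fin.ext (congrArg (fun z : Fin n => (z : ℕ)) hab)
  have H := prop_of_uncovered β l (f 0) hli hexp (fun T hT => by
    obtain ⟨t, ht1, ht2⟩ := hcon T hT
    exact ⟨t, ht2, ht1⟩)
  have hs : ∀ i, Fintype.linearCombination ℚ l (Pi.single i 1) = l i := by
    intro i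
    rw [Fintype.linearCombination_apply_single, one_smul]
  have hexp' : ∀ i, IsAlgebraic ℚ (Complex.exp (l i)) := by
    intro i
    have h := hexp (Pi.single i 1)
    rwa [hs] at h
  have hl0 : ∀ i, l i ≠ 0 := fun i => hli.ne_zero i
  have htr : ∀ i, Transcendental ℚ (l i) := fun i h => LW.transcendental_exp h (hl0 i) (hexp' i)
  have hy : ∀ i, Transcendental ℚ (Complex.exp (β * l i)) := fun i =>
    full_GS β (l i) hβ hirr (hl0 i) (hexp' i)
  refine full_T23 (l (f 0)) β (fun k => l (f k)) (htr _) hirr (hli.comp f hf) (FinB_rat hβ) ?_ ?_ ?_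
  · intro k
    exact alg_x H (f 0) (hy _) (f 0) (htr _) (f k)
  · intro k
    exact FinB_rat (hexp' _)
  · intro k
    have h := alg_y H (Pi.single (f 0) 1) (by rw [hs]; exact htr _) (f k)
    rwa [hs] at h

/-- The inductive descent. -/
theorem descent (P : ℂ → Prop) (m : ℕ)
    (hcov : ∀ (n : ℕ), m < n → ∀ l : Fin n → ℂ, LinearIndependent ℚ l →
      (∀ t : Fin n → ℚ, IsAlgebraic ℚ (Complex.exp (Fintype.linearCombination ℚ l t))) →
      ∃ T : Finset (Submodule ℚ (Fin n → ℚ)), (∀ W ∈ T, W ≠ ⊤) ∧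
        ∀ t : Fin n → ℚ, P (Fintype.linearCombination ℚ l t) → ∃ W ∈ T, t ∈ W) :
    ∀ (k : ℕ) (V : Submodule ℚ ℂ), FiniteDimensional ℚ V → Module.finrank ℚ V ≤ k →
      (∀ z ∈ V, IsAlgebraic ℚ (Complex.exp z)) →
      ∃ T : Set (Submodule ℚ ℂ), T.Finite ∧ (∀ W ∈ T, W ≤ V ∧ Module.finrank ℚ W ≤ m) ∧
        ∀ z ∈ V, P z → ∃ W ∈ T, z ∈ W := by
  classical
  intro k
  induction k with
  | zero =>
    intro V _ hk hV
    exact ⟨{V}, Set.finite_singleton _, fun W hW => by
      rw [Set.mem_singleton_iff] at hW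
      subst hW
      exact ⟨le_rfl, by omega⟩, fun z hz _ => ⟨V, rfl, hz⟩⟩
  | succ k ih =>
    intro V hfin hk hV
    by_cases hm : Module.finrank ℚ V ≤ m
    · exact ⟨{V}, Set.finite_singleton _, fun W hW => by
        rw [Set.mem_singleton_iff] at hW
        subst hW
        exact ⟨le_rfl, hm⟩, fun z hz _ => ⟨V, rfl, hz⟩⟩
    · push Not at hm
      let b := Module.finBasis ℚ V
      set n := Module.finrank ℚ V with hn
      let l : Fin n → ℂ := fun i => (b i : ℂ)
      have hli : LinearIndependent ℚ l := b.linearIndependent.map' V.subtype V.ker_subtype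
      have hlc : ∀ t : Fin n → ℚ, Fintype.linearCombination ℚ l t =
          ((∑ i, t i • b i : V) : ℂ) := by
        intro t
        rw [Fintype.linearCombination_apply, Submodule.coe_sum]
        rfl
      have hmem : ∀ t : Fin n → ℚ, Fintype.linearCombination ℚ l t ∈ V := by
        intro t
        rw [hlc]
        exact Subtype.property _
      have hinj : Function.Injective (Fintype.linearCombination ℚ l) :=
        hli.fintypeLinearCombination_injective
      obtain ⟨T, hT1, hT2⟩ := hcov n hm l hli (fun t => hV _ (hmem t))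
      have hsub : ∀ W : Submodule ℚ (Fin n → ℚ), W.map (Fintype.linearCombination ℚ l) ≤ V := by
        intro W
        rw [Submodule.map_le_iff_le_comap]
        intro t _
        exact hmem t
      have hrank : ∀ W ∈ T, Module.finrank ℚ (W.map (Fintype.linearCombination ℚ l)) ≤ k := by
        intro W hW
        have h1 : Module.finrank ℚ (W.map (Fintype.linearCombination ℚ l)) =
            Module.finrank ℚ W :=
          (Submodule.equivMapOfInjective _ hinj W).finrank_eq.symm
        have h2 : Module.finrank ℚ W < Module.finrank ℚ (Fin n → ℚ) :=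
          Submodule.finrank_lt (hT1 W hW)
        rw [Module.finrank_fin_fun] at h2
        omega
      have h3 : ∀ W : T, ∃ T' : Set (Submodule ℚ ℂ), T'.Finite ∧
          (∀ W' ∈ T', W' ≤ (W : Submodule ℚ (Fin n → ℚ)).map (Fintype.linearCombination ℚ l) ∧
            Module.finrank ℚ W' ≤ m) ∧
          ∀ z ∈ (W : Submodule ℚ (Fin n → ℚ)).map (Fintype.linearCombination ℚ l),
            P z → ∃ W' ∈ T', z ∈ W' := by
        intro W
        exact ih _ inferInstance (hrank W W.2) (fun z hz => hV z (hsub _ hz))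
      choose T' hf' hr' hc' using h3
      refine ⟨⋃ W : T, T' W, Set.finite_iUnion hf', ?_, ?_⟩
      · intro W' hW'
        obtain ⟨W, hW⟩ := Set.mem_iUnion.1 hW'
        exact ⟨(hr' W W' hW).1.trans (hsub _), (hr' W W' hW).2⟩
      · intro z hz hPz
        have hz' : Fintype.linearCombination ℚ l (fun i => b.repr ⟨z, hz⟩ i) = z := by
          rw [hlc]
          have h4 := b.sum_repr ⟨z, hz⟩
          rw [h4]
        obtain ⟨W, hW, hWt⟩ := hT2 (fun i => b.repr ⟨z, hz⟩ i) (by rw [hz']; exact hPz)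
        obtain ⟨W', hW', hzW'⟩ := hc' ⟨W, hW⟩ z ⟨_, hWt, hz'⟩ hPz
        exact ⟨W', Set.mem_iUnion.2 ⟨⟨W, hW⟩, hW'⟩, hzW'⟩

theorem finite_lines (β : ℂ) (hd : (minpoly ℚ β).natDegree = 2) (V : Submodule ℚ ℂ)
    (hfin : FiniteDimensional ℚ V) (hV : ∀ z ∈ V, IsAlgebraic ℚ (Complex.exp z)) :
    ∃ S : Set ℂ, S.Finite ∧ S ⊆ V ∧ ∀ z ∈ V, z ≠ 0 →
      ¬ AlgebraicIndependent ℚ ![z, Complex.exp (β * z)] → ∃ s ∈ S, ∃ q : ℚ, z = q * s := by
  classical
  obtain ⟨T, hT1, hT2, hT3⟩ := descent
    (fun z => ¬ AlgebraicIndependent ℚ ![z, Complex.exp (β * z)]) 1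
    (fun n hn l hli hexp => cover_quad hn β hd l hli hexp) _ V hfin le_rfl hV
  have h1 : ∀ W : T, ∃ s ∈ (W : Submodule ℚ ℂ), ∀ z ∈ (W : Submodule ℚ ℂ), ∃ q : ℚ, z = q * s := by
    intro W
    obtain ⟨hWV, hWr⟩ := hT2 W W.2
    have hWf : FiniteDimensional ℚ (W : Submodule ℚ ℂ) := Submodule.finiteDimensional_of_le hWV
    obtain ⟨s, hs⟩ := finrank_le_one_iff.1 hWr
    refine ⟨s, s.2, fun z hz => ?_⟩
    obtain ⟨q, hq⟩ := hs ⟨z, hz⟩
    refine ⟨q, ?_⟩
    have h2 := congrArg Subtype.val hq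
    rw [← Rat.smul_def]
    exact h2.symm
  choose s hs1 hs2 using h1
  have hTf := hT1.to_subtype
  refine ⟨Set.range s, Set.finite_range s, ?_, ?_⟩
  · rintro _ ⟨W, rfl⟩
    exact (hT2 W W.2).1 (hs1 W)
  · intro z hz _ hbad
    obtain ⟨W, hW, hzW⟩ := hT3 z hz hbad
    obtain ⟨q, hq⟩ := hs2 ⟨W, hW⟩ z hzW
    exact ⟨_, ⟨⟨W, hW⟩, rfl⟩, q, hq⟩

theorem finite_planes (β : ℂ) (hβ : IsAlgebraic ℚ β) (hirr : ∀ q : ℚ, β ≠ q) (V : Submodule ℚ ℂ)
    (hfin : FiniteDimensional ℚ V) (hV : ∀ z ∈ V, IsAlgebraic ℚ (Complex.exp z)) :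
    ∃ T : Set (Submodule ℚ ℂ), T.Finite ∧ (∀ W ∈ T, W ≤ V ∧ Module.finrank ℚ W ≤ 2) ∧
      ∀ z ∈ V, ¬ AlgebraicIndependent ℚ ![z, Complex.exp (β * z)] → ∃ W ∈ T, z ∈ W :=
  descent (fun z => ¬ AlgebraicIndependent ℚ ![z, Complex.exp (β * z)]) 2
    (fun _ hn l hli hexp => cover_gen hn β hβ hirr l hli hexp) _ V hfin le_rfl hV

/-- Exceptional logarithms are stable under non-zero rational factors. -/
theorem bad_smul (β z : ℂ) (hz : z ≠ 0) (hexp : IsAlgebraic ℚ (Complex.exp z)) (q : ℚ) (hq : q ≠ 0)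
    (hbad : ¬ AlgebraicIndependent ℚ ![z, Complex.exp (β * z)]) :
    ¬ AlgebraicIndependent ℚ ![q * z, Complex.exp (β * (q * z))] := by
  have hq' : (q : ℂ) ≠ 0 := by exact_mod_cast hq
  have hzt : Transcendental ℚ z := fun h => LW.transcendental_exp h hz hexp
  have halg : Alg z (Complex.exp (β * z)) := by
    by_contra h
    exact hbad ((pr_Pair _ _ hzt).mpr h)
  have hexp' : IsAlgebraic ℚ (Complex.exp (q * z)) := FinB_exp_rat q hexp
  have hqzt : Transcendental ℚ (q * z) := fun h =>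
    LW.transcendental_exp h (mul_ne_zero hq' hz) hexp'
  rw [pr_Pair _ _ hqzt, not_not]
  have h6 : β * (q * z) = q * (β * z) := by ring
  rw [h6]
  exact FinB_smul q hq (FinB_exp_rat q halg)

/-- **The theorem.** -/
theorem final (β : ℂ) (hβ : IsAlgebraic ℚ β) (hirr : ∀ q : ℚ, β ≠ q) (V : Submodule ℚ ℂ)
    (hfin : FiniteDimensional ℚ V) (hV : ∀ z ∈ V, IsAlgebraic ℚ (Complex.exp z)) :
    ∃ T : Set (Submodule ℚ ℂ), T.Finite ∧ (∀ W ∈ T, W ≤ V ∧ Module.finrank ℚ W ≤ 2) ∧
      (∀ z ∈ V, z ≠ 0 → ¬ AlgebraicIndependent ℚ ![z, Complex.exp (β * z)] → ∃ W ∈ T, z ∈ W) ∧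
      ((minpoly ℚ β).natDegree = 2 →
        (∀ W ∈ T, Module.finrank ℚ W = 1 ∧
          ∀ z ∈ W, ¬ AlgebraicIndependent ℚ ![z, Complex.exp (β * z)]) ∧
        (∀ W₁ ∈ T, ∀ W₂ ∈ T, ∀ W₃ ∈ T, W₁ ≠ W₂ → W₁ ≠ W₃ → W₂ ≠ W₃ →
          ¬ W₁ ≤ W₂ ⊔ W₃)) := by
  classical
  by_cases hd : (minpoly ℚ β).natDegree = 2
  · obtain ⟨S, hS1, hS2, hS3⟩ := finite_lines β hd V hfin hV
    let P : ℂ → Prop := fun z => ¬ AlgebraicIndependent ℚ ![z, Complex.exp (β * z)]
    refine ⟨(fun s => Submodule.span ℚ {s}) '' {s | s ∈ S ∧ s ≠ 0 ∧ P s}, ?_, ?_, ?_, fun _ => ?_⟩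
    · exact (hS1.subset fun s hs => hs.1).image _
    · rintro _ ⟨s, ⟨hs1, hs2, hs3⟩, rfl⟩
      refine ⟨?_, ?_⟩
      · rw [Submodule.span_singleton_le_iff_mem]
        exact hS2 hs1
      · rw [finrank_span_singleton hs2]
        omega
    · intro z hz hz0 hbad
      obtain ⟨s, hs, q, hq⟩ := hS3 z hz hz0 hbad
      have hq0 : q ≠ 0 := by
        rintro rfl
        apply hz0
        rw [hq]
        simp
      have hs0 : s ≠ 0 := by
        rintro rfl
        apply hz0
        rw [hq, mul_zero]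
      have hqc : (q : ℂ) ≠ 0 := by exact_mod_cast hq0
      refine ⟨_, ⟨s, ⟨hs, hs0, ?_⟩, rfl⟩, ?_⟩
      · have h1 := bad_smul β z hz0 (hV z hz) q⁻¹ (inv_ne_zero hq0) hbad
        have h2 : ((q⁻¹ : ℚ) : ℂ) * z = s := by
          rw [hq]
          push_cast
          rw [← mul_assoc, inv_mul_cancel₀ hqc, one_mul]
        rwa [h2] at h1
      · rw [Submodule.mem_span_singleton]
        exact ⟨q, by rw [hq, Rat.smul_def]⟩
    · refine ⟨?_, ?_⟩
      · rintro _ ⟨s, ⟨hs1, hs2, hs3⟩, rfl⟩
        refine ⟨finrank_span_singleton hs2, ?_⟩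
        intro z hz
        rw [Submodule.mem_span_singleton] at hz
        obtain ⟨q, rfl⟩ := hz
        rw [Rat.smul_def]
        by_cases hq : q = 0
        · subst hq
          intro h
          have h1 := h.transcendental 0
          apply h1
          simp only [Rat.cast_zero, zero_mul, Matrix.cons_val_zero]
          exact isAlgebraic_zero
        · exact bad_smul β s hs2 (hV s (hS2 hs1)) q hq hs3
      · rintro _ ⟨a, ⟨ha1, ha2, ha3⟩, rfl⟩ _ ⟨b, ⟨hb1, hb2, hb3⟩, rfl⟩ _ ⟨c, ⟨hc1, hc2, hc3⟩, rfl⟩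
          hab hac hbc hle
        rw [Submodule.span_singleton_le_iff_mem, Submodule.mem_sup] at hle
        obtain ⟨y, hy, z, hz, hyz⟩ := hle
        rw [Submodule.mem_span_singleton] at hy hz
        obtain ⟨p, rfl⟩ := hy
        obtain ⟨r, rfl⟩ := hz
        -- the three lines are pairwise distinct
        have hlin : ∀ u w : ℂ, u ≠ 0 → w ≠ 0 → Submodule.span ℚ {u} ≠ Submodule.span ℚ {w} →
            LinearIndependent ℚ ![u, w] := by
          intro u w hu hw hne
          rw [LinearIndependent.pair_iff' hu]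
          intro q hq
          apply hne
          have hq0 : q ≠ 0 := by
            rintro rfl
            apply hw
            rw [← hq, zero_smul]
          rw [← hq]
          exact (Submodule.span_singleton_smul_eq (IsUnit.mk0 q hq0) u).symm
        have hl1 : LinearIndependent ℚ ![a, b] := hlin a b ha2 hb2 hab
        have hl2 : LinearIndependent ℚ ![a, c] := hlin a c ha2 hc2 hac
        have hl3 : LinearIndependent ℚ ![b, c] := hlin b c hb2 hc2 hbc
        have hswap : ∀ u w : ℂ, LinearIndependent ℚ ![u, w] → LinearIndependent ℚ ![w, u] := by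
          intro u w h
          rw [LinearIndependent.pair_iff] at h ⊢
          intro s t hst
          have := h t s (by rw [add_comm]; exact hst)
          exact ⟨this.2, this.1⟩
        obtain ⟨i, hi⟩ := (pr_FinB full_T23 full_GS pr_AlgB pr_Pair β hd).1 ![a, b, c] (by
            intro i
            fin_cases i
            · exact hV a (hS2 ha1)
            · exact hV b (hS2 hb1)
            · exact hV c (hS2 hc1)) (by
            intro i j hij
            fin_cases i <;> fin_cases j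
            · exact absurd rfl hij
            · exact hl1
            · exact hl2
            · exact hswap _ _ hl1
            · exact absurd rfl hij
            · exact hl3
            · exact hswap _ _ hl2
            · exact hswap _ _ hl3
            · exact absurd rfl hij) (by
            rw [Fintype.linearIndependent_iff]
            push Not
            refine ⟨![-1, p, r], ?_, 0, ?_⟩
            · rw [Fin.sum_univ_three]
              simp only [Matrix.cons_val_zero, Matrix.cons_val_one, Matrix.cons_val_two,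
                Matrix.tail_cons, Matrix.head_cons, neg_smul, one_smul]
              rw [← hyz]
              abel
            · norm_num)
        fin_cases i
        · exact ha3 hi
        · exact hb3 hi
        · exact hc3 hi
  · obtain ⟨T, hT1, hT2, hT3⟩ := finite_planes β hβ hirr V hfin hV
    exact ⟨T, hT1, hT2, fun z hz _ hbad => hT3 z hz hbad, fun h => absurd h hd⟩

end Pool.Agent.Work.MP_327059_nt.FL
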